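import Pool.Agent.MWGP.Stmts

/-!
# Squad MWGP, row GAP: non-first occurrences may be repeated; they commute
-/

set_option autoImplicit false

namespace Pool.Agent.MWGP.H5

open Pool.Agent.Helper14_MV Pool.Agent.Helper2_MV Pool.Agent.MVO Pool.Agent.MWL Pool.Agent.MWS
  Pool.Agent.MWH
open Pool.Agent.MWGP

theorem flatMap_rep (g : ℕ → List ℕ) (m c x : ℕ) (h : g c = [x]) :
    (List.replicate m c).flatMap g = List.replicate m x := by
  induction m with
  | zero => rfl
  | succ m ih => rw [List.replicate_succ, List.flatMap_cons, ih, h, List.replicate_succ]; rfl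

theorem gap1 {n : ℕ} {β : FIC} (hga : MWZ.Ga n (RR β)) (p q : List ℕ) (x : ℕ) (hx : x ∈ p) :
    RR β (p ++ x :: q) (p ++ (List.replicate (n + 1) x ++ q)) := by
  obtain ⟨p1, p2, rfl⟩ := List.append_of_mem hx
  have h0 : RR β [0, 1, 0] (0 :: 1 :: List.replicate (n + 1) 0) := hga
  have h1 := h0.sub (fun i => if i = 0 then [x] else p2)
  have e1 : ([0, 1, 0] : List ℕ).flatMap (fun i => if i = 0 then [x] else p2) =
      x :: (p2 ++ [x]) := by simp
  have e2 : (0 :: 1 :: List.replicate (n + 1) 0).flatMap
      (fun i => if i = 0 then [x] else p2) = x :: (p2 ++ List.replicate (n + 1) x) := by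
    rw [List.flatMap_cons, List.flatMap_cons, flatMap_rep _ _ _ x (by simp)]
    simp
  rw [e1, e2] at h1
  have h2 := ((RR.refl p1).append h1).append (RR.refl (β := β) q)
  have e3 : p1 ++ x :: (p2 ++ [x]) ++ q = p1 ++ x :: p2 ++ x :: q := by simp
  have e4 : p1 ++ x :: (p2 ++ List.replicate (n + 1) x) ++ q =
      p1 ++ x :: p2 ++ (List.replicate (n + 1) x ++ q) := by simp
  rw [e3, e4] at h2
  exact h2

/-- **GAP** -/
theorem gap : GapStmt := by
  intro n β hga hrn p q x y hx
  refine ⟨gap1 hga p q x hx, fun hy => ?_⟩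
  -- both sides are equivalent to the middle
  have key : ∀ x y : ℕ, x ∈ p → y ∈ p → RR β (p ++ x :: y :: q)
      (p ++ (List.replicate (n + 1) x ++ (List.replicate (n + 1) y ++ q))) := by
    intro x y hx hy
    have h1 := gap1 hga p (y :: q) x hx
    have h2 := gap1 hga (p ++ List.replicate (n + 1) x) q y (List.mem_append_left _ hy)
    have e1 : p ++ (List.replicate (n + 1) x ++ y :: q) =
        p ++ List.replicate (n + 1) x ++ y :: q := by simp
    have e2 : p ++ List.replicate (n + 1) x ++ (List.replicate (n + 1) y ++ q) =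
        p ++ (List.replicate (n + 1) x ++ (List.replicate (n + 1) y ++ q)) := by simp
    rw [e1] at h1
    rw [e2] at h2
    exact β.trans h1 h2
  have h3 := hrn
  have h4 := RR.sub (fun i => if i = 0 then [x] else [y]) (show RR β _ _ from h3)
  rw [List.flatMap_append, List.flatMap_append, flatMap_rep _ _ 0 x (by simp),
    flatMap_rep _ _ 1 y (by simp)] at h4
  have h5 := ((RR.refl p).append h4).append (RR.refl (β := β) q)
  have e3 : p ++ (List.replicate (n + 1) x ++ List.replicate (n + 1) y) ++ q =
      p ++ (List.replicate (n + 1) x ++ (List.replicate (n + 1) y ++ q)) := by simp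
  have e4 : p ++ (List.replicate (n + 1) y ++ List.replicate (n + 1) x) ++ q =
      p ++ (List.replicate (n + 1) y ++ (List.replicate (n + 1) x ++ q)) := by simp
  rw [e3, e4] at h5
  exact β.trans (β.trans (key x y hx hy) h5) (key y x hy hx).symm

end Pool.Agent.MWGP.H5
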